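import Mathlib
import Pool.Agent.V1147.PermSym

set_option autoImplicit false

namespace Pool.Agent.Results.MP_9bc296_ag.GenericSymmetric

open MvPolynomial

/-- `P_t(X)`: the ideal generated by the permanents of all `t × t` submatrices of `X` -/
def permIdeal {S : Type*} [CommRing S] {m n : ℕ} (M : Matrix (Fin m) (Fin n) S) (t : ℕ) :
    Ideal S :=
  Ideal.span {f | ∃ (r : Fin t → Fin m) (c : Fin t → Fin n), StrictMono r ∧ StrictMono c ∧
    f = (M.submatrix r c).permanent}

/-- the generic `m × n` matrix over `k[x_ij]` -/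
noncomputable def genericMatrix (k : Type*) [Field k] (m n : ℕ) :
    Matrix (Fin m) (Fin n) (MvPolynomial (Fin m × Fin n) k) :=
  fun i j => X (i, j)

/-- the generic symmetric `n × n` matrix; the variables are indexed by unordered pairs -/
noncomputable def symmetricMatrix (k : Type*) [Field k] (n : ℕ) :
    Matrix (Fin n) (Fin n) (MvPolynomial (Sym2 (Fin n)) k) :=
  fun i j => X s(i, j)

open Pool.Agent.V1147.Perm

/-- the matrix `[I | 1 | 1]` padded with zeros -/
def N0 (k : Type*) [Field k] (s p q : ℕ) : k :=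
  if p < s then (if q = p ∨ q = s ∨ q = s + 1 then 1 else 0) else 0

theorem prod_ne {k : Type*} [Field k] (h2 : (2 : k) ≠ 0) (s : ℕ) :
    ∏ _i : Fin s, (-(2 * (1 : k) * 1)) ≠ 0 := by
  rw [Finset.prod_ne_zero_iff]
  intro i _
  simpa using h2

/-- generic case with `n ≥ t + 1`, for any matrix of distinct variables -/
theorem generic_aux {k : Type*} [Field k] (h2 : (2 : k) ≠ 0) {m n s : ℕ} (hs : 1 ≤ s)
    (hm : s + 1 ≤ m) (hn : s + 2 ≤ n) {σ : Type*} (v : Fin m × Fin n → σ)
    (u : σ → Fin m × Fin n) (huv : ∀ x, u (v x) = x)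
    (M : Matrix (Fin m) (Fin n) (MvPolynomial σ k)) (hM : ∀ i j, M i j = X (v (i, j))) :
    ¬ (pIdeal M (s + 1)).IsPrime := by
  classical
  refine not_prime hm hn M
    (eval₂Hom (RingHom.id k) (fun x => N0 k s (u x).1.val (u x).2.val))
    (eval₂Hom (RingHom.id k)
      (fun x => if u x = (rho hm none, gam hn (Sum.inr false)) then (1 : k) else 0))
    ?_ ?_ (fun _ => 1) (fun _ => 1) ?_ (prod_ne h2 s) (Sum.inr false) ?_
  · intro r c hr _
    refine perm_few_rows _ ?_ r c hr
    intro p q hp
    simp only [Matrix.map_apply, hM, coe_eval₂Hom, eval₂_X, huv, N0]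
    rw [if_neg (by omega)]
  · intro r c hr _
    refine perm_single hs _ (rho hm none) ?_ r c hr
    intro p q hp
    simp only [Matrix.map_apply, hM, coe_eval₂Hom, eval₂_X, huv]
    rw [if_neg]
    intro h
    exact hp (Prod.mk.inj h).1
  · intro l i
    simp only [hM, coe_eval₂Hom, eval₂_X, huv, N0]
    rcases i with i | _ | _
    · have h1 : (rho hm (some l)).val < s := l.isLt
      rw [if_pos h1]
      have h3 : ((gam hn (Sum.inl i)).val = (rho hm (some l)).val ∨
          (gam hn (Sum.inl i)).val = s ∨ (gam hn (Sum.inl i)).val = s + 1) ↔ l = i := by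
        have h4 := i.isLt
        simp only [gam, rho, Fin.ext_iff]
        omega
      simp only [h3, Y0]
    · have h1 : (rho hm (some l)).val < s := l.isLt
      have h5 : (gam hn (Sum.inr false : Kp s)).val = s := rfl
      rw [if_pos h1, if_pos (Or.inr (Or.inl h5))]
      rfl
    · have h1 : (rho hm (some l)).val < s := l.isLt
      have h5 : (gam hn (Sum.inr true : Kp s)).val = s + 1 := rfl
      rw [if_pos h1, if_pos (Or.inr (Or.inr h5))]
      rfl
  · simp only [hM, coe_eval₂Hom, eval₂_X, huv]
    simp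

section sym

variable (k : Type*) [Field k]

/-- the ideal of the squares of the variables -/
noncomputable def sqIdeal : Ideal (MvPolynomial (ℕ × Bool) k) :=
  Ideal.span ((fun e => monomial e (1 : k)) '' (Set.range fun v : ℕ × Bool => Finsupp.single v 2))

noncomputable abbrev BB := MvPolynomial (ℕ × Bool) k ⧸ sqIdeal k

noncomputable def aa (l : ℕ) : BB k := Ideal.Quotient.mk (sqIdeal k) (X (l, false))
noncomputable def bb (l : ℕ) : BB k := Ideal.Quotient.mk (sqIdeal k) (X (l, true))

theorem sq_zero (v : ℕ × Bool) : (Ideal.Quotient.mk (sqIdeal k) (X v)) ^ 2 = 0 := by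
  rw [← map_pow, Ideal.Quotient.eq_zero_iff_mem, X_pow_eq_monomial]
  exact Ideal.subset_span ⟨_, ⟨v, rfl⟩, rfl⟩

theorem prod_ne_zero (h2 : (2 : k) ≠ 0) (s : ℕ) :
    ∏ i : Fin s, (-(2 * aa k i.val * bb k i.val)) ≠ 0 := by
  have h1 : ∏ i : Fin s, (-(2 * aa k i.val * bb k i.val)) =
      Ideal.Quotient.mk (sqIdeal k) (monomial
        (∑ i : Fin s, (Finsupp.single (i.val, false) 1 + Finsupp.single (i.val, true) 1))
        (∏ _i : Fin s, (-2 : k))) := by
    rw [monomial_sum_prod, map_prod]
    refine Finset.prod_congr rfl fun i _ => ?_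
    rw [← mul_one (-2 : k), ← monomial_mul]
    have h5 : monomial (Finsupp.single (i.val, false) 1) (-2 : k) =
        C (-2) * X (i.val, false) := by
      rw [C_mul_X_eq_monomial]
    rw [h5]
    change _ = Ideal.Quotient.mk (sqIdeal k) (C (-2) * X (i.val, false) * X (i.val, true))
    rw [map_neg, map_ofNat]
    have h7 : (Ideal.Quotient.mk (sqIdeal k)) (2 : MvPolynomial (ℕ × Bool) k) = 2 :=
      map_ofNat _ 2
    simp [aa, bb, h7]
  rw [h1, Ne, Ideal.Quotient.eq_zero_iff_mem, sqIdeal, mem_ideal_span_monomial_image]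
  intro hcon
  have h6 : ∏ _i : Fin s, (-2 : k) ≠ 0 := by
    rw [Finset.prod_ne_zero_iff]
    intro i _
    simpa using h2
  obtain ⟨_, ⟨v, rfl⟩, hv⟩ := hcon (∑ i : Fin s, (Finsupp.single (i.val, false) 1 +
    Finsupp.single (i.val, true) 1)) (by rw [mem_support_iff, coeff_monomial, if_pos rfl]; exact h6)
  have h7 := hv v
  rw [Finsupp.single_eq_same, Finsupp.finsetSum_apply] at h7
  have h8 : ∑ i : Fin s, (Finsupp.single (i.val, false) 1 + Finsupp.single (i.val, true) 1 :
      (ℕ × Bool) →₀ ℕ) v ≤ ∑ i : Fin s, (if i.val = v.1 then 1 else 0) := by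
    refine Finset.sum_le_sum fun i _ => ?_
    obtain ⟨l, c⟩ := v
    rw [Finsupp.add_apply, Finsupp.single_apply, Finsupp.single_apply]
    cases c <;> simp [Prod.ext_iff]
  have h9 : ∑ i : Fin s, (if i.val = v.1 then 1 else 0) ≤ 1 := by
    rw [← Finset.card_filter, Finset.card_le_one]
    intro a ha b hb
    rw [Finset.mem_filter] at ha hb
    exact Fin.ext (ha.2.trans hb.2.symm)
  omega

end sym

/-- the symmetric case -/
theorem symmetric_aux {k : Type*} [Field k] (h2 : (2 : k) ≠ 0) {n s : ℕ} (hs : 1 ≤ s)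
    (hn : s + 2 ≤ n) : ¬ (pIdeal (symmetricMatrix k n) (s + 1)).IsPrime := by
  classical
  have hm : s + 1 ≤ n := by omega
  refine not_prime hm hn (symmetricMatrix k n)
    (eval₂Hom ((Ideal.Quotient.mk (sqIdeal k)).comp C)
      (Sym2.lift ⟨fun p q : Fin n => mN s (aa k) (bb k) p.val q.val,
        fun p q => mN_symm s (aa k) (bb k) p.val q.val⟩))
    (eval₂Hom (RingHom.id k)
      (fun x => if x = s(rho hm none, rho hm none) then (1 : k) else 0))
    ?_ ?_ (fun i => aa k i.val) (fun i => bb k i.val) ?_ (prod_ne_zero k h2 s) (Sum.inr false) ?_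
  · intro r c hr hc
    have h1 := perm_sym (s := s) (aa k) (bb k) (fun l => sq_zero k (l, false))
      (fun l => sq_zero k (l, true)) r c hr hc
    rw [← h1]
    congr 1
    ext x y
    simp [symmetricMatrix]
  · intro r c hr _
    refine perm_single hs _ (rho hm none) ?_ r c hr
    intro p q hp
    simp only [Matrix.map_apply, symmetricMatrix, coe_eval₂Hom, eval₂_X]
    rw [if_neg]
    intro h
    rw [Sym2.eq_iff] at h
    rcases h with h | h
    · exact hp h.1
    · exact hp h.1
  · intro l i
    have hl := l.isLt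
    simp only [symmetricMatrix, coe_eval₂Hom, eval₂_X, Sym2.lift_mk]
    rcases i with i | _ | _
    · have hi := i.isLt
      have h3 : (gam hn (Sum.inl i)).val = i.val := rfl
      have h4 : (rho hm (some l)).val = l.val := rfl
      rw [h3, h4]
      simp only [mN, Y0, if_pos hl]
      by_cases h : l = i
      · rw [if_pos h, if_pos (by rw [h])]
      · rw [if_neg h, if_neg (fun h' => h (Fin.ext h'.symm)), if_neg (by omega),
          if_neg (by omega)]
    · have h3 : (gam hn (Sum.inr false : Kp s)).val = s := rfl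
      have h4 : (rho hm (some l)).val = l.val := rfl
      rw [h3, h4]
      simp only [mN, Y0, if_pos hl]
      rw [if_neg (by omega)]
      simp
    · have h3 : (gam hn (Sum.inr true : Kp s)).val = s + 1 := rfl
      have h4 : (rho hm (some l)).val = l.val := rfl
      rw [h3, h4]
      simp only [mN, Y0, if_pos hl]
      rw [if_neg (by omega), if_neg (by omega)]
      simp
  · simp only [symmetricMatrix, coe_eval₂Hom, eval₂_X]
    have h5 : gam hn (Sum.inr false : Kp s) = rho hm none := rfl
    rw [h5, if_pos rfl]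
    exact one_ne_zero

/-- **Permanental ideals of generic and of generic symmetric matrices, all sizes.** Let `k` be a
field of characteristic different from two (in particular of odd prime characteristic).
(1) Let `X` be the generic `m × n` matrix and `2 ≤ t ≤ min(m, n)`. If `t, m, n` are not all
equal, then the ideal `P_t(X)` generated by the permanents of the `t × t` submatrices is not prime.
(2) Let `X` be the generic symmetric `n × n` matrix and `2 ≤ t < n`. Then `P_t(X)` is not
prime. -/
theorem result (k : Type*) [Field k] (h2 : (2 : k) ≠ 0) :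
    (∀ m n t : ℕ, 2 ≤ t → t ≤ m → t ≤ n → ¬ (t = m ∧ m = n) →
      ¬ (permIdeal (genericMatrix k m n) t).IsPrime) ∧
    (∀ n t : ℕ, 2 ≤ t → t < n → ¬ (permIdeal (symmetricMatrix k n) t).IsPrime) := by
  constructor
  · intro m n t ht htm htn hne
    obtain ⟨s, rfl⟩ : ∃ s, t = s + 1 := ⟨t - 1, by omega⟩
    by_cases hn : s + 2 ≤ n
    · exact generic_aux h2 (by omega) htm hn id id (fun _ => rfl) (genericMatrix k m n)
        (fun _ _ => rfl)
    · have hm : s + 2 ≤ m := by omega
      have h1 := generic_aux (m := n) (n := m) h2 (by omega) htn hm Prod.swap Prod.swap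
        (fun _ => rfl) (genericMatrix k m n).transpose (fun _ _ => rfl)
      rwa [pIdeal_transpose] at h1
  · intro n t ht htn
    obtain ⟨s, rfl⟩ : ∃ s, t = s + 1 := ⟨t - 1, by omega⟩
    exact symmetric_aux h2 (by omega) htn

end Pool.Agent.Results.MP_9bc296_ag.GenericSymmetric
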